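import Pool.Agent.V11300.MS.Basic

set_option autoImplicit false

namespace Pool.Agent.V11300.MS

open MeasureTheory Set Filter Topology

/-- if every point is in at most `K` of the sets then the sum of their measures is at most `K X` -/
theorem sum_le {I : Finset ℕ} {S : ℕ → Set ℝ} {X : ℝ} (hX : 0 ≤ X) {K : ℕ}
    (hS : ∀ i ∈ I, MeasurableSet (S i)) (hSX : ∀ i ∈ I, S i ⊆ Ioc 0 X)
    (h : ∀ x : ℝ, ∀ W : Finset ℕ, W ⊆ I → (∀ i ∈ W, x ∈ S i) → W.card ≤ K) :
    ∑ i ∈ I, volume.real (S i) ≤ K * X := by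
  classical
  have hint : ∀ i ∈ I, Integrable ((S i).indicator (fun _ => (1 : ℝ))) := by
    intro i hi
    rw [integrable_indicator_iff (hS i hi)]
    exact integrableOn_const (ne_of_lt (lt_of_le_of_lt (measure_mono (hSX i hi)) (by simp))) (by simp)
  have h1 : ∑ i ∈ I, volume.real (S i) = ∫ x, ∑ i ∈ I, (S i).indicator (fun _ => (1 : ℝ)) x := by
    rw [integral_finsetSum I hint]
    apply Finset.sum_congr rfl
    intro i hi
    rw [integral_indicator_const _ (hS i hi)]
    simp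
  have h2 : ∫ x, (Ioc 0 X).indicator (fun _ => (K : ℝ)) x = K * X := by
    rw [integral_indicator_const _ measurableSet_Ioc]
    simp [Measure.real, Real.volume_Ioc, hX, mul_comm]
  rw [h1, ← h2]
  apply integral_mono (integrable_finsetSum I hint)
  · rw [integrable_indicator_iff measurableSet_Ioc]
    exact integrableOn_const (by simp) (by simp)
  · intro x
    show ∑ i ∈ I, (S i).indicator (fun _ => (1 : ℝ)) x ≤ (Ioc 0 X).indicator (fun _ => (K : ℝ)) x
    have h3 : ∑ i ∈ I, (S i).indicator (fun _ => (1 : ℝ)) x = ((I.filter (fun i => x ∈ S i)).card : ℝ) := by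
      rw [Finset.card_filter]
      push_cast
      apply Finset.sum_congr rfl
      intro i _
      by_cases hx : x ∈ S i <;> simp [hx]
    rw [h3]
    by_cases hx : x ∈ Ioc 0 X
    · rw [indicator_of_mem hx]
      exact_mod_cast h x _ (Finset.filter_subset _ _) (fun i hi => (Finset.mem_filter.1 hi).2)
    · rw [indicator_of_notMem hx]
      have : I.filter (fun i => x ∈ S i) = ∅ := by
        rw [Finset.filter_eq_empty_iff]
        intro i hi hxi
        exact hx (hSX i hi hxi)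
      rw [this]
      simp

/-- bounded densities and few returns at all levels allow few windows with large oscillation -/
theorem few_bad {x ε Λ : ℝ} {J k : ℕ} (hε : 0 < ε) (hL : 1 < Real.log x) (hx : 1 ≤ x)
    (hJ : 4 * Λ / ε + 1 ≤ J) {u v : ℕ → ℝ}
    (h0 : ¬ Ret (Λ / 2) Λ 0 x)
    (h1 : ∀ j ∈ Finset.Icc 1 J, ¬ Ret (j * (ε / 4)) ((j + 1) * (ε / 4)) k x)
    (W : Finset ℕ) (hmono : ∀ i ∈ W, ∀ j ∈ W, i < j → v i < u j)
    (hW : ∀ i ∈ W, Real.log x ^ v i ≤ x ∧ ¬ Steady (u i) (v i) ε x) :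
    W.card ≤ 2 * k * J := by
  classical
  have hL0 : 0 < Real.log x := by linarith
  have hden : ∀ H : ℝ, 0 < H → H ≤ x → dens x H < Λ := by
    intro H hH hHx
    by_contra hcon
    push Not at hcon
    apply h0
    refine ⟨fun _ => H, hH, ?_, hHx, fun _ _ => hcon, ?_⟩
    · intro i hi; omega
    · intro i hi; omega
  have hch : ∀ i, ∃ s t : ℝ, i ∈ W → s ∈ Icc (u i) (v i) ∧ t ∈ Icc (u i) (v i) ∧
      ε < R s x - R t x := by
    intro i
    by_cases hi : i ∈ W
    · have := (hW i hi).2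
      unfold Steady at this
      push Not at this
      obtain ⟨s, hs, t, ht, hst⟩ := this
      exact ⟨s, t, fun _ => ⟨hs, ht, hst⟩⟩
    · exact ⟨0, 0, fun h => absurd h hi⟩
  choose s t hst using hch
  set lev : ℕ → ℕ := fun i => ⌊4 * R (t i) x / ε⌋₊ + 1 with hlev
  have hR0 : ∀ r : ℝ, 0 ≤ R r x := fun r => dens_nonneg hx (Real.rpow_nonneg hL0.le r)
  by_contra hcon
  push Not at hcon
  have hmaps : ∀ i ∈ W, lev i ∈ Finset.Icc 1 J := by
    intro i hi
    rw [Finset.mem_Icc]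
    refine ⟨by simp [hlev], ?_⟩
    have h2 : R (t i) x < Λ := by
      apply hden _ (Real.rpow_pos_of_pos hL0 _)
      refine le_trans ?_ (hW i hi).1
      exact Real.rpow_le_rpow_of_exponent_le hL.le (hst i hi).2.1.2
    have h3 : (⌊4 * R (t i) x / ε⌋₊ : ℝ) ≤ 4 * R (t i) x / ε :=
      Nat.floor_le (div_nonneg (mul_nonneg (by norm_num) (hR0 _)) hε.le)
    have h4 : 4 * R (t i) x / ε ≤ 4 * Λ / ε := by
      apply div_le_div_of_nonneg_right _ hε.le
      linarith
    have h5 : ((lev i : ℕ) : ℝ) ≤ J := by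
      simp only [hlev]
      push_cast
      linarith
    exact_mod_cast h5
  obtain ⟨j, hj, hcard⟩ := Finset.exists_lt_card_fiber_of_mul_lt_card_of_maps_to hmaps (n := 2 * k)
    (by rw [Nat.card_Icc, Nat.add_sub_cancel, mul_comm]; exact hcon)
  apply h1 j hj
  apply returns_of_windows hL (W.filter (fun i => lev i = j))
    (fun a ha b hb hab => hmono a (Finset.mem_filter.1 ha).1 b (Finset.mem_filter.1 hb).1 hab) (by omega)
  · intro i hi
    exact (hW i (Finset.mem_filter.1 hi).1).1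
  · intro i hi
    obtain ⟨hi1, hi2⟩ := Finset.mem_filter.1 hi
    obtain ⟨a1, a2, a3⟩ := hst i hi1
    have hj' : (j : ℝ) = ⌊4 * R (t i) x / ε⌋₊ + 1 := by
      rw [← hi2]
      simp [hlev]
    have h3 : (⌊4 * R (t i) x / ε⌋₊ : ℝ) ≤ 4 * R (t i) x / ε :=
      Nat.floor_le (div_nonneg (mul_nonneg (by norm_num) (hR0 _)) hε.le)
    have h4 : 4 * R (t i) x / ε < ⌊4 * R (t i) x / ε⌋₊ + 1 := Nat.lt_floor_add_one _
    rw [← hj'] at h4
    rw [div_lt_iff₀ hε] at h4
    have h5 : (j : ℝ) - 1 ≤ 4 * R (t i) x / ε := by linarith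
    rw [le_div_iff₀ hε] at h5
    refine ⟨⟨t i, a2, ?_⟩, ⟨s i, a1, ?_⟩⟩
    · show R (t i) x ≤ _
      nlinarith
    · show _ ≤ R (s i) x
      nlinarith

theorem main (ε η : ℝ) (hε : 0 < ε) (hη : 0 < η) : ∃ K : ℕ, ∀ᶠ X : ℝ in atTop,
    ∀ (u v : ℕ → ℝ) (I : Finset ℕ), (∀ i ∈ I, ∀ j ∈ I, i < j → v i < u j) →
    (∀ i ∈ I, Real.log X ^ v i ≤ Real.sqrt X) →
      (∀ i ∈ I, η * X < volume.real {x | 2 < x ∧ x ≤ X ∧ ¬ Steady (u i) (v i) ε x}) → I.card ≤ K := by
  classical
  set Λ : ℝ := 8 / η with hΛ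
  have hΛ0 : 0 < Λ := by positivity
  set J : ℕ := ⌈4 * Λ / ε⌉₊ + 1 with hJ
  have hJ1 : 4 * Λ / ε + 1 ≤ J := by
    have := Nat.le_ceil (4 * Λ / ε)
    rw [hJ]; push_cast; linarith
  have hJ0 : (1 : ℝ) ≤ J := by
    have : (0 : ℝ) < 4 * Λ / ε := by positivity
    linarith
  set ρ : ℝ := (2 * J + 1) / (2 * J + 2) with hρ
  have hρ1 : ρ < 1 := by
    rw [hρ, div_lt_one (by positivity)]
    linarith
  have hρ0 : 0 ≤ ρ := by positivity
  obtain ⟨k, hk⟩ := exists_pow_lt_of_lt_one (show (0 : ℝ) < η / (16 * J) by positivity) hρ1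
  have hk' : J * (2 * ρ ^ k) ≤ η / 8 := by
    rw [lt_div_iff₀ (by positivity)] at hk
    nlinarith
  set K0 : ℕ := 2 * k * J with hK0
  set K : ℕ := ⌈4 * (K0 : ℝ) / η⌉₊ with hK
  refine ⟨K, ?_⟩
  -- the exceptional sets
  have e1 := ret_bound (Λ / 2) Λ 1 (by positivity) (by linarith) one_pos
  have e2 : ∀ᶠ X : ℝ in atTop, ∀ j ∈ Finset.Icc 1 J,
      volume.real {x | 0 ≤ x ∧ x ≤ X ∧ Ret (j * (ε / 4)) ((j + 1) * (ε / 4)) k x} ≤ 2 * ρ ^ k * X := by
    rw [Filter.eventually_all_finset]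
    intro j hj
    rw [Finset.mem_Icc] at hj
    have hj0 : (1 : ℝ) ≤ j := by exact_mod_cast hj.1
    have hjJ : (j : ℝ) ≤ J := by exact_mod_cast hj.2
    have hδ : (0 : ℝ) < 1 / (2 * (j + 1)) := by positivity
    filter_upwards [ret_bound (j * (ε / 4)) ((j + 1) * (ε / 4)) (1 / (2 * (j + 1))) (by positivity)
      (by nlinarith) hδ, eventually_ge_atTop 0] with X hX hX0
    refine le_trans (hX k) ?_
    apply mul_le_mul_of_nonneg_right _ hX0
    have h1 : j * (ε / 4) / ((j + 1) * (ε / 4)) + 1 / (2 * ((j : ℝ) + 1)) = (2 * j + 1) / (2 * j + 2) := by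
      field_simp
    have h2 : ((2 * j + 1) / (2 * j + 2) : ℝ) ≤ ρ := by
      rw [hρ, div_le_div_iff₀ (by positivity) (by positivity)]
      nlinarith
    rw [h1]
    have h3 : ((2 * j + 1) / (2 * j + 2) : ℝ) ^ k ≤ ρ ^ k := pow_le_pow_left₀ (by positivity) h2 k
    have h4 : (1 + 1 / (2 * ((j : ℝ) + 1))) * min 1 (1 / ((j + 1) * (ε / 4))) ≤ 2 * 1 := by
      apply mul_le_mul _ (min_le_left _ _) (le_min zero_le_one (by positivity)) (by norm_num)
      have : 1 / (2 * ((j : ℝ) + 1)) ≤ 1 := by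
        rw [div_le_one (by positivity)]
        linarith
      linarith
    calc (1 + 1 / (2 * ((j : ℝ) + 1))) * min 1 (1 / ((j + 1) * (ε / 4))) * ((2 * j + 1) / (2 * j + 2)) ^ k
        ≤ (2 * 1) * ρ ^ k := mul_le_mul h4 h3 (by positivity) (by norm_num)
      _ = 2 * ρ ^ k := by ring
  have e3 : Real.exp 1 ≥ 1 := Real.one_le_exp (by norm_num)
  filter_upwards [e1, e2, eventually_ge_atTop (4 * Real.exp 1 / η), eventually_ge_atTop (1 : ℝ),
    eventually_ge_atTop ((4 / η) ^ 2)] with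
    X h1 h2 h3 hX1 h4 u v I hmono hlen hbad
  have hX0 : 0 < X := by linarith
  set x0 : ℝ := η / 4 * X with hx0
  have hx0X : x0 ≤ η / 4 * X := le_rfl
  have hx0e : Real.exp 1 ≤ x0 := by
    rw [div_le_iff₀ hη] at h3
    rw [hx0]
    linarith
  have hx00 : 0 < x0 := by positivity
  have hsq : Real.sqrt X ≤ x0 := by
    have a1 : 4 / η ≤ Real.sqrt X := by
      rw [Real.le_sqrt (by positivity) hX0.le]
      exact h4
    have a2 : Real.sqrt X * Real.sqrt X = X := Real.mul_self_sqrt hX0.le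
    rw [div_le_iff₀ hη] at a1
    have a3 := Real.sqrt_nonneg X
    rw [hx0]
    nlinarith
  by_contra hcon
  push Not at hcon
  set B0 : Set ℝ := {x | 0 ≤ x ∧ x ≤ X ∧ Ret (Λ / 2) Λ 0 x} with hB0
  set B : ℕ → Set ℝ := fun j => {x | 0 ≤ x ∧ x ≤ X ∧ Ret (j * (ε / 4)) ((j + 1) * (ε / 4)) k x} with hB
  have hfin : ∀ T : Set ℝ, T ⊆ Icc 0 X → volume T ≠ ⊤ := fun T hT =>
    ne_of_lt (lt_of_le_of_lt (measure_mono hT) (by simp))
  set U : Set ℝ := B0 ∪ ⋃ j ∈ Finset.Icc 1 J, B j with hU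
  have hUsub : U ⊆ Icc 0 X := by
    intro x hx
    rcases hx with hx | hx
    · exact ⟨hx.1, hx.2.1⟩
    · rw [mem_iUnion₂] at hx
      obtain ⟨j, _, hx⟩ := hx
      exact ⟨hx.1, hx.2.1⟩
  have hUvol : volume.real U ≤ 3 / 8 * η * X := by
    have a1 : volume.real U ≤ volume.real B0 + volume.real (⋃ j ∈ Finset.Icc 1 J, B j) :=
      measureReal_union_le _ _
    have a2 : volume.real (⋃ j ∈ Finset.Icc 1 J, B j) ≤ ∑ j ∈ Finset.Icc 1 J, volume.real (B j) :=
      measureReal_biUnion_finset_le _ _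
    have a3 : ∑ j ∈ Finset.Icc 1 J, volume.real (B j) ≤ ∑ j ∈ Finset.Icc 1 J, 2 * ρ ^ k * X :=
      Finset.sum_le_sum h2
    have a4 : ∑ j ∈ Finset.Icc 1 J, 2 * ρ ^ k * X = J * (2 * ρ ^ k) * X := by
      rw [Finset.sum_const, Nat.card_Icc, Nat.add_sub_cancel, nsmul_eq_mul]
      ring
    have a5 : volume.real B0 ≤ η / 4 * X := by
      refine le_trans (h1 0) ?_
      apply mul_le_mul_of_nonneg_right _ hX0.le
      have : min 1 (1 / Λ) ≤ η / 8 := by
        refine le_trans (min_le_right _ _) ?_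
        rw [hΛ, one_div_div]
      simp only [pow_zero, mul_one]
      linarith
    have a6 : J * (2 * ρ ^ k) * X ≤ η / 8 * X := mul_le_mul_of_nonneg_right hk' hX0.le
    linarith
  set U' : Set ℝ := toMeasurable volume U with hU'
  have hU'vol : volume.real U' = volume.real U := by
    rw [hU', Measure.real, measure_toMeasurable, Measure.real]
  have hUU' : U ⊆ U' := subset_toMeasurable _ _
  set S : ℕ → Set ℝ := fun i => {x | x0 < x ∧ x ≤ X ∧ ¬ Steady (u i) (v i) ε x} \ U' with hS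
  have hSX : ∀ i, S i ⊆ Ioc 0 X := fun i x hx => ⟨by linarith [hx.1.1], hx.1.2.1⟩
  have hSm : ∀ i, MeasurableSet (S i) := fun i =>
    (bad_measurable _ _ _ _ _ hx0e).diff (measurableSet_toMeasurable _ _)
  have hbound : ∑ i ∈ I, volume.real (S i) ≤ K0 * X := by
    apply sum_le hX0.le (fun i _ => hSm i) (fun i _ => hSX i)
    intro x W hWI hW
    rcases W.eq_empty_or_nonempty with h0 | ⟨i0, hi0⟩
    · rw [h0]; simp
    · have hx := hW i0 hi0
      have hxx0 : x0 < x := hx.1.1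
      have hxX : x ≤ X := hx.1.2.1
      have hxU : x ∉ U := fun h => hx.2 (hUU' h)
      have hL : 1 < Real.log x := by
        rw [Real.lt_log_iff_exp_lt (by linarith)]
        linarith
      apply few_bad hε hL (by linarith) hJ1 (u := u) (v := v) (hmono := fun a ha b hb hab =>
        hmono a (hWI ha) b (hWI hb) hab)
      · intro hr
        exact hxU (Or.inl ⟨by linarith, hxX, hr⟩)
      · intro j hj hr
        apply hxU
        right
        rw [mem_iUnion₂]
        exact ⟨j, hj, by linarith, hxX, hr⟩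
      · intro i hi
        refine ⟨?_, (hW i hi).1.2.2⟩
        rcases le_or_gt 0 (v i) with hv | hv
        · calc Real.log x ^ v i ≤ Real.log X ^ v i :=
                Real.rpow_le_rpow (by linarith) (Real.log_le_log (by linarith) hxX) hv
            _ ≤ Real.sqrt X := hlen i (hWI hi)
            _ ≤ x := by linarith
        · calc Real.log x ^ v i ≤ Real.log x ^ (0 : ℝ) :=
                Real.rpow_le_rpow_of_exponent_le hL.le hv.le
            _ = 1 := Real.rpow_zero _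
            _ ≤ x := by linarith
  have hlow : ∀ i ∈ I, η / 4 * X ≤ volume.real (S i) := by
    intro i hi
    have a1 := hbad i hi
    have a2 : {x | 2 < x ∧ x ≤ X ∧ ¬ Steady (u i) (v i) ε x} ⊆ (Ioc 0 x0 ∪ S i) ∪ U' := by
      intro x hx
      by_cases hxU : x ∈ U'
      · exact Or.inr hxU
      · left
        by_cases hxx : x ≤ x0
        · left; exact ⟨by linarith [hx.1], hxx⟩
        · right
          push Not at hxx
          exact ⟨⟨hxx, hx.2.1, hx.2.2⟩, hxU⟩
    have a3 : volume.real {x | 2 < x ∧ x ≤ X ∧ ¬ Steady (u i) (v i) ε x} ≤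
        volume.real ((Ioc 0 x0 ∪ S i) ∪ U') := by
      have b1 : volume (Ioc 0 x0) ≠ ⊤ := by simp
      have b2 : volume (S i) ≠ ⊤ := hfin _ (fun x hx => ⟨(hSX i hx).1.le, (hSX i hx).2⟩)
      have b3 : volume U' ≠ ⊤ := by
        rw [hU', measure_toMeasurable]; exact hfin _ hUsub
      exact measureReal_mono a2 (measure_union_ne_top (measure_union_ne_top b1 b2) b3)
    have a4 : volume.real ((Ioc 0 x0 ∪ S i) ∪ U') ≤ volume.real (Ioc 0 x0) + volume.real (S i) +
        volume.real U' :=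
      le_trans (measureReal_union_le _ _) (by linarith [measureReal_union_le (μ := volume) (Ioc 0 x0) (S i)])
    have a5 : volume.real (Ioc 0 x0) = x0 := by
      rw [Measure.real, Real.volume_Ioc, ENNReal.toReal_ofReal (by linarith)]
      ring
    rw [a5, hU'vol] at a4
    nlinarith
  have hsum : (I.card : ℝ) * (η / 4 * X) ≤ K0 * X := by
    refine le_trans ?_ hbound
    calc (I.card : ℝ) * (η / 4 * X) = ∑ i ∈ I, η / 4 * X := by rw [Finset.sum_const, nsmul_eq_mul]
      _ ≤ _ := Finset.sum_le_sum hlow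
  have hKlt : (K : ℝ) < I.card := by exact_mod_cast hcon
  have hKge : 4 * (K0 : ℝ) / η ≤ K := Nat.le_ceil _
  rw [div_le_iff₀ hη] at hKge
  have h5 : (I.card : ℝ) * (η / 4) ≤ K0 := by
    have : (I.card : ℝ) * (η / 4) * X ≤ K0 * X := by linarith
    exact le_of_mul_le_mul_right this hX0
  nlinarith

end Pool.Agent.V11300.MS
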