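import Pool.Agent.TH110.Zig.PrimesRet

set_option autoImplicit false

/-!
Fluctuations of the local density of the primes over the intervals of length `(log x) ^ s`, as `s` varies.
The input is the bound for the number of returns of `Pool.Agent.TH110.Zig`.
-/

namespace Pool.Agent.V11300.MS

open MeasureTheory Set Filter Topology

/-- the number of primes `≤ x` -/
noncomputable def prc (x : ℝ) : ℝ := (Nat.primeCounting ⌊x⌋₊ : ℝ)

/-- the relative density of the primes in `(x, x + H]` -/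
noncomputable def dens (x H : ℝ) : ℝ := (prc (x + H) - prc x) * Real.log x / H

/-- `k` returns from `≤ a` to `≥ b` -/
def Ret (a b : ℝ) (k : ℕ) (x : ℝ) : Prop :=
  ∃ H : ℕ → ℝ, 0 < H 0 ∧ (∀ i < 2 * k, H i < H (i + 1)) ∧ H (2 * k) ≤ x ∧
    (∀ i ≤ k, b ≤ dens x (H (2 * i))) ∧ ∀ i < k, dens x (H (2 * i + 1)) ≤ a

theorem ret_bound (a b δ : ℝ) (ha : 0 < a) (hab : a < b) (hδ : 0 < δ) :
    ∀ᶠ X : ℝ in atTop, ∀ k : ℕ, volume.real {x | 0 ≤ x ∧ x ≤ X ∧ Ret a b k x} ≤
      (1 + δ) * min 1 (1 / b) * (a / b + δ) ^ k * X := by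
  have h := TH110.Zig.reg_qp.returns TH110.Zig.slow_log ha hab hδ
  rw [TH110.Zig.cr_qp] at h
  exact h

theorem prc_mono : Monotone prc := by
  intro x y hxy
  unfold prc
  exact_mod_cast Nat.monotone_primeCounting (Nat.floor_mono hxy)

theorem prc_measurable : Measurable prc := prc_mono.measurable

theorem dens_nonneg {x H : ℝ} (hx : 1 ≤ x) (hH : 0 ≤ H) : 0 ≤ dens x H := by
  unfold dens
  apply div_nonneg _ hH
  apply mul_nonneg
  · have := prc_mono (show x ≤ x + H by linarith)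
    linarith
  · exact Real.log_nonneg hx

/-- the windows in which the density is both low and high produce returns -/
theorem returns_of_windows {x L : ℝ} (hL : 1 < L) {a b : ℝ} {k : ℕ} {u v : ℕ → ℝ}
    (W : Finset ℕ) (hmono : ∀ i ∈ W, ∀ j ∈ W, i < j → v i < u j) (hW : 2 * k + 1 ≤ W.card)
    (hx : ∀ i ∈ W, L ^ v i ≤ x)
    (h : ∀ i ∈ W, (∃ s ∈ Icc (u i) (v i), dens x (L ^ s) ≤ a) ∧
      ∃ t ∈ Icc (u i) (v i), b ≤ dens x (L ^ t)) : Ret a b k x := by
  classical
  have hch : ∀ i, ∃ s t : ℝ, i ∈ W → (s ∈ Icc (u i) (v i) ∧ dens x (L ^ s) ≤ a) ∧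
      (t ∈ Icc (u i) (v i) ∧ b ≤ dens x (L ^ t)) := by
    intro i
    by_cases hi : i ∈ W
    · obtain ⟨⟨s, hs⟩, t, ht⟩ := h i hi
      exact ⟨s, t, fun _ => ⟨hs, ht⟩⟩
    · exact ⟨0, 0, fun h1 => absurd h1 hi⟩
  choose s t hst using hch
  set g : Fin W.card ↪o ℕ := W.orderEmbOfFin rfl with hg
  have hgW : ∀ i, g i ∈ W := fun i => W.orderEmbOfFin_mem rfl i
  set idx : ℕ → ℕ := fun m => if hm : m < W.card then g ⟨m, hm⟩ else 0 with hidx
  have hidxW : ∀ m ≤ 2 * k, idx m ∈ W := by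
    intro m hm
    have hm' : m < W.card := by omega
    simp only [hidx, hm', dif_pos]
    exact hgW _
  have hidxlt : ∀ m < 2 * k, idx m < idx (m + 1) := by
    intro m hm
    have hm1 : m < W.card := by omega
    have hm2 : m + 1 < W.card := by omega
    simp only [hidx, hm1, hm2, dif_pos]
    exact g.strictMono (Fin.mk_lt_mk.2 (Nat.lt_succ_self m))
  set e : ℕ → ℝ := fun m => if m % 2 = 0 then t (idx m) else s (idx m) with he
  have heI : ∀ m ≤ 2 * k, e m ∈ Icc (u (idx m)) (v (idx m)) := by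
    intro m hm
    have h1 := hst (idx m) (hidxW m hm)
    by_cases h2 : m % 2 = 0
    · simp only [he, h2, if_true]
      exact h1.2.1
    · simp only [he, h2, if_false]
      exact h1.1.1
  have hL0 : 0 < L := by linarith
  refine ⟨fun m => L ^ e m, Real.rpow_pos_of_pos hL0 _, ?_, ?_, ?_, ?_⟩
  · intro m hm
    apply Real.rpow_lt_rpow_of_exponent_lt hL
    have h1 := heI m (by omega)
    have h2 := heI (m + 1) (by omega)
    have h3 := hmono _ (hidxW m (by omega)) _ (hidxW (m + 1) (by omega)) (hidxlt m hm)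
    exact lt_of_le_of_lt h1.2 (lt_of_lt_of_le h3 h2.1)
  · have h1 := heI (2 * k) le_rfl
    exact le_trans (Real.rpow_le_rpow_of_exponent_le hL.le h1.2) (hx _ (hidxW _ le_rfl))
  · intro i hi
    have h1 := hst (idx (2 * i)) (hidxW _ (by omega))
    have h2 : (2 * i) % 2 = 0 := by omega
    simp only [he, h2, if_true]
    exact h1.2.2
  · intro i hi
    have h1 := hst (idx (2 * i + 1)) (hidxW _ (by omega))
    have h2 : ¬ (2 * i + 1) % 2 = 0 := by omega
    simp only [he, h2, if_false]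
    exact h1.1.2

/-- the density at the length `(log x) ^ s` -/
noncomputable def R (s x : ℝ) : ℝ := dens x (Real.log x ^ s)

theorem R_measurable (s : ℝ) : Measurable (R s) := by
  unfold R dens
  have h1 : Measurable fun x : ℝ => Real.log x ^ s := Real.measurable_log.pow_const s
  exact (((prc_measurable.comp (measurable_id.add h1)).sub prc_measurable).mul
    Real.measurable_log).div h1

theorem prc_rightCont (y : ℝ) (hy : 0 ≤ y) : ∀ᶠ z : ℝ in 𝓝[≥] y, prc z = prc y := by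
  have h1 : y < (⌊y⌋₊ : ℝ) + 1 := Nat.lt_floor_add_one y
  have h2 : ∀ᶠ z : ℝ in 𝓝[≥] y, z < (⌊y⌋₊ : ℝ) + 1 := nhdsWithin_le_nhds (eventually_lt_nhds h1)
  filter_upwards [h2, self_mem_nhdsWithin] with z hz hz2
  unfold prc
  have : ⌊z⌋₊ = ⌊y⌋₊ := by
    rw [Nat.floor_eq_iff (le_trans hy hz2)]
    exact ⟨le_trans (Nat.floor_le hy) hz2, hz⟩
  rw [this]

theorem R_rightCont {x : ℝ} (hx : 1 < Real.log x) (hx0 : 0 ≤ x) (s : ℝ) :
    Tendsto (fun t => R t x) (𝓝[≥] s) (𝓝 (R s x)) := by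
  have hL0 : 0 < Real.log x := by linarith
  have h1 : Tendsto (fun t => x + Real.log x ^ t) (𝓝[≥] s) (𝓝[≥] (x + Real.log x ^ s)) := by
    rw [tendsto_nhdsWithin_iff]
    constructor
    · apply Tendsto.mono_left _ nhdsWithin_le_nhds
      exact tendsto_const_nhds.add ((Real.continuous_const_rpow hL0.ne').tendsto s)
    · filter_upwards [self_mem_nhdsWithin] with t ht
      have := Real.rpow_le_rpow_of_exponent_le hx.le ht
      show x + Real.log x ^ s ≤ x + Real.log x ^ t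
      linarith
  have h2 := h1.eventually (prc_rightCont (x + Real.log x ^ s)
    (add_nonneg hx0 (Real.rpow_nonneg hL0.le s)))
  have h3 : Tendsto (fun t => (prc (x + Real.log x ^ s) - prc x) * Real.log x / Real.log x ^ t)
      (𝓝[≥] s) (𝓝 (R s x)) := by
    unfold R dens
    apply Tendsto.mono_left _ nhdsWithin_le_nhds
    exact tendsto_const_nhds.div ((Real.continuous_const_rpow hL0.ne').tendsto s)
      (Real.rpow_pos_of_pos hL0 s).ne'
  apply h3.congr'
  filter_upwards [h2] with t ht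
  unfold R dens
  rw [ht]

/-- the exponents used in the countable version -/
def Dense (u v : ℝ) : Set ℝ := {s | s ∈ Icc u v ∧ (s = v ∨ ∃ q : ℚ, (q : ℝ) = s)}

theorem dense_countable (u v : ℝ) : (Dense u v).Countable := by
  have h : Dense u v ⊆ {v} ∪ Set.range (fun q : ℚ => (q : ℝ)) := by
    rintro s ⟨-, h | ⟨q, hq⟩⟩
    · left; exact h
    · right; exact ⟨q, hq⟩
  exact ((countable_singleton v).union (countable_range _)).mono h

theorem exists_dense {u v s : ℝ} (hs : s ∈ Icc u v) {P : ℝ → Prop} (hP : ∀ᶠ t in 𝓝[≥] s, P t) :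
    ∃ t ∈ Dense u v, P t := by
  rcases hs.2.eq_or_lt with h | h
  · refine ⟨s, ⟨hs, Or.inl h⟩, ?_⟩
    exact (mem_of_mem_nhdsWithin (Set.mem_Ici.2 le_rfl) hP : P s)
  · rw [Filter.Eventually, mem_nhdsGE_iff_exists_Ico_subset' h] at hP
    obtain ⟨w, hw, hsub⟩ := hP
    obtain ⟨q, hq1, hq2⟩ := exists_rat_btwn (lt_min hw h : s < min w v)
    refine ⟨q, ⟨⟨by linarith [hs.1], (lt_of_lt_of_le hq2 (min_le_right _ _)).le⟩, Or.inr ⟨q, rfl⟩⟩, ?_⟩
    exact hsub ⟨hq1.le, lt_of_lt_of_le hq2 (min_le_left _ _)⟩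

/-- `s ↦ R s x` varies by at most `ε` on `[u, v]` -/
def Steady (u v ε x : ℝ) : Prop := ∀ s ∈ Icc u v, ∀ t ∈ Icc u v, R s x - R t x ≤ ε

theorem steady_iff {u v ε x : ℝ} (hx : 1 < Real.log x) (hx0 : 0 ≤ x) :
    ¬ Steady u v ε x ↔ ∃ s ∈ Dense u v, ∃ t ∈ Dense u v, ε < R s x - R t x := by
  constructor
  · intro h
    unfold Steady at h
    push Not at h
    obtain ⟨s, hs, t, ht, hst⟩ := h
    have h1 : ∀ᶠ s' in 𝓝[≥] s, ε < R s' x - R t x := by
      have := (R_rightCont hx hx0 s).sub_const (R t x)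
      exact this.eventually (eventually_gt_nhds hst)
    obtain ⟨s', hs', h2⟩ := exists_dense hs h1
    have h3 : ∀ᶠ t' in 𝓝[≥] t, ε < R s' x - R t' x := by
      have := (R_rightCont hx hx0 t).const_sub (R s' x)
      exact this.eventually (eventually_gt_nhds h2)
    obtain ⟨t', ht', h4⟩ := exists_dense ht h3
    exact ⟨s', hs', t', ht', h4⟩
  · rintro ⟨s, hs, t, ht, hst⟩ h
    exact absurd (h s hs.1 t ht.1) (not_le.2 hst)

theorem bad_measurable (u v ε x0 X : ℝ) (hx0 : Real.exp 1 ≤ x0) :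
    MeasurableSet {x | x0 < x ∧ x ≤ X ∧ ¬ Steady u v ε x} := by
  have h : {x | x0 < x ∧ x ≤ X ∧ ¬ Steady u v ε x} =
      Ioc x0 X ∩ ⋃ s ∈ Dense u v, ⋃ t ∈ Dense u v, {x | ε < R s x - R t x} := by
    ext x
    simp only [mem_ofPred_eq, mem_inter_iff, mem_Ioc, mem_iUnion, exists_prop]
    constructor
    · rintro ⟨h1, h2, h3⟩
      have h4 : 1 < Real.log x := by
        rw [Real.lt_log_iff_exp_lt (lt_trans (Real.exp_pos 1) (lt_of_le_of_lt hx0 h1))]
        linarith
      have h5 : 0 ≤ x := by have := Real.exp_pos 1; linarith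
      rw [steady_iff h4 h5] at h3
      exact ⟨⟨h1, h2⟩, h3⟩
    · rintro ⟨⟨h1, h2⟩, h3⟩
      have h4 : 1 < Real.log x := by
        rw [Real.lt_log_iff_exp_lt (lt_trans (Real.exp_pos 1) (lt_of_le_of_lt hx0 h1))]
        linarith
      have h5 : 0 ≤ x := by have := Real.exp_pos 1; linarith
      exact ⟨h1, h2, (steady_iff h4 h5).2 h3⟩
  rw [h]
  apply measurableSet_Ioc.inter
  apply MeasurableSet.biUnion (dense_countable u v)
  intro s _
  apply MeasurableSet.biUnion (dense_countable u v)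
  intro t _
  exact measurableSet_lt measurable_const ((R_measurable s).sub (R_measurable t))

end Pool.Agent.V11300.MS
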